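import Pool.Agent.Q2T.Main

/-! # MP_542b67_gt, Q2: `R̃_K` can be strictly larger than the closure of `R_K`

`SurfFib.RTilde` (file `Pool/Agent/SurfFib/Defs.lean`) is the relation `R̃` of the compact space `K`
(with its subspace topology), `Q2T.RK` (file `Pool/Agent/Q2T/Defs.lean`) the relation `R_K`. -/

namespace Pool.Agent.Results.MP_542b67_gt.ClosureStrict

/-- There are a closed surface `S` (a compact connected metric space charted on the plane; in fact
the torus), a compact subset `K` of `S` which is not homeomorphic to a subset of the plane, and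
points `x`, `y` of `K` with `(x, y)` in `R̃_K` but not in the closure of `R_K` in `K × K`. -/
theorem result : ∃ (S : Type) (_ : MetricSpace S) (_ : CompactSpace S) (_ : ConnectedSpace S)
    (_ : ChartedSpace (EuclideanSpace ℝ (Fin 2)) S) (K : Set S), IsCompact K ∧
    (¬ ∃ f : K → EuclideanSpace ℝ (Fin 2), Topology.IsEmbedding f) ∧
    ∃ x y : K, SurfFib.RTilde x y ∧
      (x, y) ∉ closure {p : K × K | Q2T.RK K (p.1 : S) (p.2 : S)} :=
  Q2T.main

end Pool.Agent.Results.MP_542b67_gt.ClosureStrict
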