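import Pool.Agent.SurfFib.Main

/-! # MP_542b67_gt, Q1: the fibres of the relation `R̃_K` are connected on every closed surface

`SurfFib.RTilde` (file `Pool/Agent/SurfFib/Defs.lean`) is the relation `R̃` of the compact space `K`
(with its subspace topology). -/

namespace Pool.Agent.Results.MP_542b67_gt.FibersConnected

/-- For every compact Hausdorff surface `S` (locally homeomorphic to the plane), every compact
subset `K` of `S` (planar or not) and every `x ∈ K`, the fibre of `R̃_K` at `x` is a continuum. -/
theorem result {S : Type*} [TopologicalSpace S] [T2Space S] [CompactSpace S]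
    [ChartedSpace (EuclideanSpace ℝ (Fin 2)) S] (K : Set S) (hK : IsCompact K) (x : K) :
    IsCompact {y : K | SurfFib.RTilde x y} ∧ IsConnected {y : K | SurfFib.RTilde x y} :=
  SurfFib.fibers_connected K hK x

end Pool.Agent.Results.MP_542b67_gt.FibersConnected
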